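import Pool.Agent.TH894.PV8

/-!
# Least primes in almost all classes of individual moduli which arise from an arbitrary integer by `C log log X`
changes of digits

Nothing is used besides Mathlib in the statement.
-/

set_option autoImplicit false

namespace Pool.Agent.Results.MP_42948a_nt.FewDigitModuliAlmostAllClasses

open Finset

open Classical in
/-- The number of the reduced residue classes `a` modulo `d` whose least prime exceeds `x`. -/
noncomputable def lateClasses (x : ℝ) (d : ℕ) : ℕ :=
  (((range d).filter (fun a => Nat.Coprime a d)).filter (fun a => ∀ p : ℕ, p.Prime → (p : ℝ) ≤ x → p % d ≠ a)).card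

/-- With `X = b ^ K`: either `d < X / K ^ κ`, or for all real `x` with `d ≤ x ≤ d K ^ κ` the number of the reduced residue
classes modulo `d` whose least prime exceeds `x` is at most `(1 + ε) φ(d) / (1 + λ)`, where `x = λ φ(d) log d`. -/
def Good (ε : ℝ) (κ b K d : ℕ) : Prop :=
  b ^ K ≤ d * K ^ κ → ∀ x : ℝ, (d : ℝ) ≤ x → x ≤ d * (K : ℝ) ^ κ →
    (lateClasses x d : ℝ) * (1 + x / ((Nat.totient d : ℝ) * Real.log d)) ≤ (1 + ε) * (Nat.totient d : ℝ)

/-- The digit number `i` (counted from the right, beginning with `0`) of `n` in base `b`. -/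
def digit (b i n : ℕ) : ℕ := n / b ^ i % b

/-- The number which arises from the number `N` with at most `K` digits in base `b`, if for every `i ∈ S`
the digit number `i` is replaced by `f i`. -/
def change (b K N : ℕ) (f : ℕ → ℕ) (S : Finset ℕ) : ℕ :=
  ∑ i ∈ range K, (if i ∈ S then f i else digit b i N) * b ^ i

/-- The positions `1, ..., K - 1` of a number with at most `K` digits are divided into three windows: the
first and the last `h` positions and the rest. -/
def window (h K : ℕ) (q : Fin 3) : Finset ℕ :=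
  if q = 0 then Ico 1 (1 + h) else if q = 1 then Ico (1 + h) (K - h) else Ico (K - h) K

/-- The choices of `s 0`, `s 1`, `s 2` positions in the three windows. -/
def choices (h K : ℕ) (s : Fin 3 → ℕ) : Finset (Fin 3 → Finset ℕ) :=
  Fintype.piFinset (fun q => powersetCard (s q) (window h K q))

open Classical in
/-- The number of the choices for which the number obtained by changing the digits of `N` at the chosen
positions (according to `f`) does not have the property `E`. -/
noncomputable def exceptions (b h K N : ℕ) (f : ℕ → ℕ) (s : Fin 3 → ℕ) (E : ℕ → Prop) : ℕ :=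
  ((choices h K s).filter (fun S => ¬ E (change b K N f (S 0 ∪ S 1 ∪ S 2)))).card

lemma change_SM (b K N : ℕ) (f : ℕ → ℕ) (T : Finset ℕ) : change b K N f T = Pool.Agent.TH894.SM.change b K N f T := rfl

/-- For every base `b ≥ 2` there is an `R ≥ 1` with the following property. Let `κ`, `U` and `0 < ε ≤ 1` be given. Then
there are `C₁ ≥ 1` and `A` such that for every sufficiently large `K` and every integer `0 ≤ N < X = b ^ K` the following
holds.

Let `m = ⌊log_b (K + 1)⌋ + 1` and `h = A m`, and divide the positions `1, ..., K - 1` of the digits into three windows: the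
first `h` and the last `h` of them, and the rest. Prescribe for every position `j` a digit `f j` different from the
digit of `N`. Let `s 0`, `s 1`, `s 2` be integers between `C₁ m` and `1 / R` times the length of the respective
window (by the first assertion one can take `s q = C₁ m`, so that only `3 C₁ m` of the digits of `N` are changed).

If one chooses `s 0`, `s 1`, `s 2` positions in the three windows and replaces the digits of `N` at these positions, then for
all but at most a proportion `1 / K ^ U` of the choices the number `d` obtained is smaller than `X / K ^ κ`, or for all real `x`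
with `d ≤ x ≤ d K ^ κ`, `x = λ φ(d) log d`, all but at most `(1 + ε) φ(d) / (1 + λ)` of the reduced residue classes modulo `d`
contain a prime `p ≤ x`. -/
theorem result (b : ℕ) (hb : 2 ≤ b) : ∃ R : ℕ, 1 ≤ R ∧ ∀ κ U : ℕ, ∀ ε : ℝ, 0 < ε → ε ≤ 1 → ∃ C₁ A K₀ : ℕ, 1 ≤ C₁ ∧
    ∀ K : ℕ, K₀ ≤ K → (∀ q, R * (C₁ * (Nat.log b (K + 1) + 1)) ≤ (window (A * (Nat.log b (K + 1) + 1)) K q).card) ∧
    ∀ N : ℕ, N < b ^ K → ∀ f : ℕ → ℕ, (∀ j, f j < b ∧ f j ≠ digit b j N) →
    ∀ s : Fin 3 → ℕ, (∀ q, C₁ * (Nat.log b (K + 1) + 1) ≤ s q ∧ R * s q ≤ (window (A * (Nat.log b (K + 1) + 1)) K q).card) →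
      (exceptions b (A * (Nat.log b (K + 1) + 1)) K N f s (Good ε κ b K) : ℝ) ≤
        1 / (K : ℝ) ^ U * (choices (A * (Nat.log b (K + 1) + 1)) K s).card := by
  classical
  obtain ⟨R, hR, H⟩ := Pool.Agent.TH894.PV.lp_ch b hb
  refine ⟨8 * R, by omega, fun κ U ε hε hε1 => ?_⟩
  obtain ⟨C₁, hC, H1⟩ := H κ U ε hε hε1
  obtain ⟨A, hA, k₀, h0⟩ := H1 (8 * R * C₁)
  obtain ⟨k2, h2⟩ := Pool.Agent.W93.DG.hh_small b A 4 hb
  obtain ⟨k3, h3⟩ := Pool.Agent.W93.DG.hh_small b 1 (κ + 4) hb
  refine ⟨C₁, 2 * A, k₀ + k2 + k3 + 8, hC, fun K hK => ?_⟩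
  have hwin : ∀ q, window (2 * A * (Nat.log b (K + 1) + 1)) K q =
      Pool.Agent.TH894.SM.Win (Pool.Agent.W93.DG.hh b A (K + 1)) (K + 1) q := by
    intro q
    unfold window Pool.Agent.TH894.SM.Win Pool.Agent.W93.DG.hh
    rw [Nat.add_sub_cancel]
  have hsm := h2 (K + 1) (by omega)
  have hlow : 8 * R * (C₁ * (Nat.log b (K + 1) + 1)) ≤ Pool.Agent.W93.DG.hh b A (K + 1) := by
    unfold Pool.Agent.W93.DG.hh
    calc 8 * R * (C₁ * (Nat.log b (K + 1) + 1)) = (8 * R * C₁) * (Nat.log b (K + 1) + 1) := by ring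
      _ ≤ (2 * A) * (Nat.log b (K + 1) + 1) := Nat.mul_le_mul_right _ (by omega)
  refine ⟨fun q => ?_, fun N hN f hf s hs => ?_⟩
  · rw [hwin]
    refine hlow.trans ?_
    unfold Pool.Agent.TH894.SM.Win
    split_ifs
    · rw [Nat.card_Ico]; omega
    · rw [Nat.card_Ico]; omega
    · rw [Nat.card_Ico]; omega
  have hun : ∀ S : Fin 3 → Finset ℕ, Pool.Agent.TH894.SM.un S = S 0 ∪ S 1 ∪ S 2 := by
    intro S
    unfold Pool.Agent.TH894.SM.un
    ext x
    simp only [mem_biUnion, mem_univ, true_and, mem_union]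
    constructor
    · rintro ⟨q, hq⟩
      have hq3 : q = 0 ∨ q = 1 ∨ q = 2 := by fin_cases q <;> simp
      rcases hq3 with rfl | rfl | rfl
      · exact Or.inl (Or.inl hq)
      · exact Or.inl (Or.inr hq)
      · exact Or.inr hq
    · rintro ((h | h) | h)
      · exact ⟨0, h⟩
      · exact ⟨1, h⟩
      · exact ⟨2, h⟩
  have hch : choices (2 * A * (Nat.log b (K + 1) + 1)) K s = Pool.Agent.TH894.LG.Ch b A K s := by
    unfold choices Pool.Agent.TH894.LG.Ch
    simp only [hwin]
  unfold exceptions
  rw [hch]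
  refine h0 K (by omega) N hN f hf s (fun q => (hs q).1) (fun q => by rw [← hwin]; exact (hs q).2) _ (filter_subset _ _) ?_
  intro S hS
  rw [mem_filter] at hS
  obtain ⟨_, hS2⟩ := hS
  rw [← hun S, change_SM] at hS2
  unfold Good at hS2
  push Not at hS2
  obtain ⟨h4, x, h5, h6, h7⟩ := hS2
  refine ⟨x, h4, h5, h6, fun hcon => absurd h7 (not_lt.2 ?_)⟩
  obtain ⟨d, hd⟩ : ∃ d, d = Pool.Agent.TH894.SM.change b K N f (Pool.Agent.TH894.SM.un S) := ⟨_, rfl⟩
  rw [← hd] at h4 h5 h6 hcon ⊢
  have hd2 : 2 ≤ d := by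
    have e1 := h3 (K + 1) (by omega)
    unfold Pool.Agent.W93.DG.hh at e1
    have e2 : 2 * K ^ κ < b ^ K := by
      obtain ⟨l, hl⟩ : ∃ l, l = Nat.log b (K + 1) + 1 := ⟨_, rfl⟩
      rw [← hl] at e1
      have e3 : K + 1 ≤ b ^ l := by rw [hl]; exact (Nat.lt_pow_succ_log_self (by omega) _).le
      have e4 : (κ + 4) * (2 * 1 * l) = 2 * (κ * l) + 8 * l := by ring
      rw [e4] at e1
      have e5 : 1 ≤ l := by omega
      calc 2 * K ^ κ ≤ b * (b ^ l) ^ κ := Nat.mul_le_mul hb (Nat.pow_le_pow_left (by omega) _)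
        _ = b ^ (κ * l + 1) := by rw [← pow_mul, pow_succ', mul_comm l κ]
        _ < b ^ K := Nat.pow_lt_pow_right (by omega) (by omega)
    by_contra hc
    have : d * K ^ κ ≤ 1 * K ^ κ := Nat.mul_le_mul_right _ (by omega)
    omega
  have hlog : 0 < Real.log d := Real.log_pos (by exact_mod_cast (by omega : 1 < d))
  have hφ : (0 : ℝ) < (Nat.totient d : ℝ) := by exact_mod_cast Nat.totient_pos.2 (by omega)
  have hlc : lateClasses x d = (Pool.Agent.TH894.PV.noP x d).card := rfl
  rw [hlc]
  have e1 : ((Pool.Agent.TH894.PV.noP x d).card : ℝ) * (1 + x / ((Nat.totient d : ℝ) * Real.log d)) =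
      (((Pool.Agent.TH894.PV.noP x d).card : ℝ) * (x + (Nat.totient d : ℝ) * Real.log d)) / ((Nat.totient d : ℝ) * Real.log d) := by
    field_simp
    ring
  rw [e1, div_le_iff₀ (by positivity)]
  exact hcon

end Pool.Agent.Results.MP_42948a_nt.FewDigitModuliAlmostAllClasses
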