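import Pool.Agent.TH464.PO.ResBase3

set_option autoImplicit false

/-!
# Almost primes in the residue classes modulo `q`: patterns with prescribed surroundings

Fix a modulus `q ≤ X ^ D`, and let the class `a` vary. Let `t` be good for `a` if `q t + a` has at
most `(D + 1) r` prime factors, all larger than `X ^ (1 / r)`. Let `V` and `W` be the products of
`1 - 1 / p` over the primes `p ≤ X ^ (1 / r)` which do not, and do, divide `q`; so `Y W` is the
number of the `a` prime to `q` in an interval of length `Y`. For a finite set `B` let `V_B` be the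
product of `1 - ν(p) / p` over the primes `p ≤ X ^ (1 / r)` not dividing `q`, `ν(p)` the number of
the residues mod `p` of the elements of `B`. Given `θ > 0`, a size `β` of patterns, a number `w`
of windows, a size `x` and an accuracy `ε`, for all `r ≥ r0` and all large `X`, for EVERY `q ≤ X ^
D`, in ALL intervals `(Z, Z + Y]` of classes inside `[0, X ^ (D + 1)]` of length `Y ≥ X ^ θ`, for
ALL sets `B ⊆ [0, x / V]` of at most `β` elements, ALL disjoint windows `(u_i, v_i] ⊆ [0, x / V]`
without elements of `B` and ALL finite sets `E_i`: the number of the `a` in `(Z, Z + Y]` prime to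
`q` such that all `t ∈ B` are good for `a` and the number of the good `t` in `(u_i, v_i]` lies in
`E_i` for every `i` is `Y W V_B` times the product of the Poisson probabilities of the `E_i` for
the means `(v_i - u_i) V`, up to `ε Y W V_B`. Here `t = 0` is allowed in `B`: for instance `B =
{0}` and one window concern the almost primes `a` followed by none of the `q t + a`, `t ≤ T`.
-/

namespace Pool.Agent.Results.MP_42948a_nt.PatternsOverResidues

open Finset Filter

/-- `N` has at most `B` prime factors (with multiplicity), all of them larger than `z`. -/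
def AlmostPrime (B : ℕ) (z : ℝ) (N : ℕ) : Prop :=
  N.primeFactorsList.length ≤ B ∧ ∀ p : ℕ, p.Prime → p ∣ N → z < (p : ℝ)

/-- `t` is good for the class `a`: `q t + a` has at most `(D + 1) r` prime factors, all larger than
`X ^ (1 / r)`. -/
def Good (D r X q a t : ℕ) : Prop :=
  AlmostPrime ((D + 1) * r) ((X : ℝ) ^ (1 / (r : ℝ))) (q * t + a)

/-- The sieve density of a class: the product of `1 - 1 / p` over the primes `p ≤ X ^ (1 / r)`
not dividing `q`. -/
noncomputable def V (r X q : ℕ) : ℝ :=
  ∏ p ∈ (Finset.range (⌊(X : ℝ) ^ (1 / (r : ℝ))⌋₊ + 1)).filter (fun p => p.Prime ∧ ¬ p ∣ q),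
    (1 - 1 / (p : ℝ))

/-- The share of the classes: the product of `1 - 1 / p` over the primes `p ≤ X ^ (1 / r)` dividing
`q`. -/
noncomputable def W (r X q : ℕ) : ℝ :=
  ∏ p ∈ (Finset.range (⌊(X : ℝ) ^ (1 / (r : ℝ))⌋₊ + 1)).filter (fun p => p.Prime ∧ p ∣ q),
    (1 - 1 / (p : ℝ))

/-- The sieve density of the pattern `B`: the product of `1 - ν(p) / p` over the primes `p ≤ X ^ (1 / r)`
not dividing `q`, where `ν(p)` is the number of the residues mod `p` of the elements of `B`. -/
noncomputable def VB (r X q : ℕ) (B : Finset ℕ) : ℝ :=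
  ∏ p ∈ (Finset.range (⌊(X : ℝ) ^ (1 / (r : ℝ))⌋₊ + 1)).filter (fun p => p.Prime ∧ ¬ p ∣ q),
    (1 - ((B.image (fun h => h % p)).card : ℝ) / p)

open Classical in
/-- The number of the good `t` in `(u, v]` for the class `a`. -/
noncomputable def count (D r X q a u v : ℕ) : ℕ :=
  ((Finset.Ioc u v).filter (fun t => Good D r X q a t)).card

/-- The probability of `E` for the Poisson distribution of mean `x`. -/
noncomputable def Poi (x : ℝ) (E : Finset ℕ) : ℝ :=
  ∑ j ∈ E, Real.exp (-x) * x ^ j / j.factorial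

open Pool.Agent.TH464.PO

open Classical in
/-- **Patterns of almost primes with prescribed surroundings, over the residue classes.** -/
theorem result (D : ℕ) (θ : ℝ) (hθ : 0 < θ) (β w : ℕ) (x ε : ℝ) (hε : 0 < ε) :
    ∃ r0 : ℕ, ∀ r : ℕ, r0 ≤ r → ∀ᶠ X : ℕ in atTop, ∀ q : ℕ, 1 ≤ q → q ≤ X ^ D →
      ∀ Z Y : ℕ, (X : ℝ) ^ θ ≤ Y → Z + Y ≤ X ^ (D + 1) →
      ∀ B : Finset ℕ, B.card ≤ β → (∀ h ∈ B, h * V r X q ≤ x) →
      ∀ u v : Fin w → ℕ, (∀ i, u i ≤ v i) → (∀ i, v i * V r X q ≤ x) →
      (∀ i j, i ≠ j → v i ≤ u j ∨ v j ≤ u i) → (∀ i, ∀ h ∈ B, h ≤ u i ∨ v i < h) →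
      ∀ E : Fin w → Finset ℕ,
        |(((Finset.Ioc Z (Z + Y)).filter (fun a => Nat.Coprime a q ∧
            (∀ t ∈ B, Good D r X q a t) ∧ ∀ i, count D r X q a (u i) (v i) ∈ E i)).card : ℝ) -
          Y * (W r X q * VB r X q B) * ∏ i, Poi (((v i : ℝ) - u i) * V r X q) (E i)| ≤
            ε * (Y * (W r X q * VB r X q B)) := by
  obtain ⟨r0, h⟩ := res_base D θ hθ β w x ε hε
  refine ⟨r0, fun r hr => ?_⟩
  filter_upwards [h r hr] with X hX q hq hqX
  exact hX q hq hqX (Good D r X q) (V r X q) (W r X q) (VB r X q) (fun _ _ => Iff.rfl) (V_Qo q _)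
    (Wq_form q _) (fun B => V_QoB q B _)

end Pool.Agent.Results.MP_42948a_nt.PatternsOverResidues
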